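import Mathlib

set_option autoImplicit false

namespace Pool.Agent.Results.MP_e40715_an.Never

open MeasureTheory Filter Topology Finset
open scoped ENNReal

variable {p : ℝ≥0∞} [Fact (1 ≤ p)]

lemma cl {Y : Type} [PseudoMetricSpace Y] {n : ℕ}
    (F : Fin n → Y → Lp ℂ p (volume : Measure UnitAddCircle)) (hF : ∀ i, Continuous (F i))
    {s : Set Y} {y : Y} (hy : y ∈ closure s) (C : UnitAddCircle → (Fin n → ℂ) → Prop)
    (hC : ∀ x, IsClosed {v | C x v}) (h : ∀ z ∈ s, ∀ᵐ x, C x fun i => F i z x) :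
    ∀ᵐ x, C x fun i => F i y x := by
  obtain ⟨z, hz, hl⟩ := mem_closure_iff_seq_limit.1 hy
  have : ∀ t : Finset (Fin n), ∃ ns : ℕ → ℕ, StrictMono ns ∧
      ∀ i ∈ t, ∀ᵐ x, Tendsto (fun k => F i (z (ns k)) x) atTop (𝓝 (F i y x)) := fun t => by
    induction t using Finset.induction_on with
    | empty => exact ⟨id, strictMono_id, by simp⟩
    | insert a t _ ih =>
      obtain ⟨ns, h1, h2⟩ := ih
      obtain ⟨ms, h3, h4⟩ := (tendstoInMeasure_of_tendsto_Lp (((hF a).tendsto y).comp
        (hl.comp h1.tendsto_atTop))).exists_seq_tendsto_ae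
      refine ⟨ns ∘ ms, h1.comp h3, forall_mem_insert _ _ _ |>.2 ⟨h4, fun i hi => ?_⟩⟩
      exact (h2 i hi).mono fun x hx => hx.comp h3.tendsto_atTop
  obtain ⟨ns, -, h2⟩ := this univ
  filter_upwards [ae_all_iff.2 fun k => h _ (hz (ns k)), ae_all_iff.2 fun i => h2 i (mem_univ i)]
    with x h3 h4
  exact (hC x).mem_of_tendsto (tendsto_pi_nhds.2 h4) (.of_forall h3)

lemma sh (β : UnitAddCircle) {P : UnitAddCircle → Prop} (h : ∀ᵐ x, P x) : ∀ᵐ x, P (β + x) :=
  (measurePreserving_add_left volume β).quasiMeasurePreserving.ae h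

/-- No weighted translation operator is hypercyclic. -/
theorem result (p : ℝ≥0∞) [Fact (1 ≤ p)] (hp : p ≠ ∞) (φ : UnitAddCircle → ℂ) (α : UnitAddCircle)
    (T : Lp ℂ p (volume : Measure UnitAddCircle) →L[ℂ] Lp ℂ p (volume : Measure UnitAddCircle))
    (hT : ∀ f, T f =ᵐ[volume] fun x => φ x * f (x + α)) :
    ¬ ∃ f, Dense (Set.range fun n : ℕ => T^[n] f) := by
  rintro ⟨f, hf⟩
  haveI := Fact.mk hp
  let τ := fun (β : UnitAddCircle) (g : Lp ℂ p (volume : Measure UnitAddCircle)) =>
    DomAddAct.mk β +ᵥ g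
  have hτ : ∀ β g, ∀ᵐ x, τ β g x = g (β + x) := fun β g => DomAddAct.vadd_Lp_ae_eq _ g
  have hc : Continuous fun q : _ × _ => τ q.1 q.2 :=
    (DomAddAct.continuous_mk.comp continuous_fst).vadd continuous_snd
  have hu : ∀ n : ℕ, ∀ᵐ x, T^[n] f x = (∏ i ∈ range n, φ (i • α + x)) * f (n • α + x) := by
    intro n
    induction n with
    | zero => simp
    | succ n ih =>
      filter_upwards [hT (T^[n] f), sh α ih] with x h1 h2
      rw [Function.iterate_succ_apply', h1, add_comm x, h2, prod_range_succ']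
      simp only [succ_nsmul, add_assoc, zero_smul, zero_add]
      ring
  let s := Set.range fun n : ℕ => (n • α, T^[n] f)
  have hK : ∀ g, ∃ β, (β, g) ∈ closure s := fun g => by
    obtain ⟨q, hq, rfl⟩ := isClosedMap_snd_of_compactSpace.closure_image_subset s
      (by rw [← Set.range_comp]; exact hf g)
    exact ⟨q.1, hq⟩
  have hid : ∀ q ∈ closure s, ∀ q' ∈ closure s, ∀ᵐ x,
      q.2 x * q'.2 (q.1 + x) * f (q'.1 + x) = q'.2 x * q.2 (q'.1 + x) * f (q.1 + x) := by
    intro q hq q' hq'
    have := cl ![fun z => z.1.2, fun z => τ z.1.1 z.2.2, fun z => τ z.2.1 f, fun z => z.2.2,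
      fun z => τ z.2.1 z.1.2, fun z => τ z.1.1 f] (fun i => by
        fin_cases i
        exacts [continuous_fst.snd, hc.comp (continuous_fst.fst.prodMk continuous_snd.snd),
          hc.comp (continuous_snd.fst.prodMk continuous_const), continuous_snd.snd,
          hc.comp (continuous_snd.fst.prodMk continuous_fst.snd),
          hc.comp (continuous_fst.fst.prodMk continuous_const)])
      (closure_prod_eq.ge (Set.mk_mem_prod hq hq'))
      (fun _ v => v 0 * v 1 * v 2 = v 3 * v 4 * v 5)
      (fun _ => isClosed_eq (by fun_prop) (by fun_prop)) (by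
        rintro ⟨_, _⟩ ⟨⟨n, rfl⟩, m, rfl⟩
        filter_upwards [hτ (n • α) (T^[m] f), hτ (m • α) f, hτ (m • α) (T^[n] f), hτ (n • α) f,
          hu n, hu m, sh (n • α) (hu m), sh (m • α) (hu n)] with x a b c d e1 e2 e3 e4
        have e5 := prod_range_add (fun i => φ (i • α + x)) n m
        rw [add_comm n, prod_range_add] at e5
        simp only [add_smul, add_assoc] at e5
        simp only [add_left_comm _ (n • α)] at e3
        simp only [add_left_comm _ (m • α)] at e4
        show T^[n] f x * τ _ _ x * τ _ _ x = T^[m] f x * τ _ _ x * τ _ _ x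
        rw [a, b, c, d, e1, e2, e3, e4, add_left_comm (m • α)]
        linear_combination -f (n • α + x) * f (m • α + x) * f (n • α + (m • α + x)) * e5)
    filter_upwards [this, hτ q.1 q'.2, hτ q'.1 f, hτ q'.1 q.2, hτ q.1 f] with x h a b c d
    rw [← a, ← b, ← c, ← d]
    exact h
  have hf0 : ∀ᵐ x, f x ≠ 0 := by
    let z := indicatorConstLp (μ := volume) p
      ((Lp.stronglyMeasurable f).measurable (measurableSet_singleton 0)) (measure_ne_top _ _) (1 : ℂ)
    have hz : ∀ᵐ x, z x = (f ⁻¹' {0}).indicator (fun _ => 1) x := indicatorConstLp_coeFn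
    obtain ⟨β, hβ⟩ := hK (Lp.const p volume 1)
    have := cl ![fun q => q.2, fun q => τ q.1 z] (fun i => by
      fin_cases i
      exacts [continuous_snd, hc.comp (continuous_fst.prodMk continuous_const)]) hβ
      (fun _ v => v 0 * v 1 = 0) (fun _ => isClosed_eq (by fun_prop) (by fun_prop)) (by
        rintro _ ⟨n, rfl⟩
        filter_upwards [hu n, hτ (n • α) z, sh (n • α) hz] with x a b c
        show T^[n] f x * τ _ _ x = 0
        rw [a, b, c]
        by_cases h : f (n • α + x) = 0 <;> simp [h])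
    have h2 : ∀ᵐ x, f (β + x) ≠ 0 := by
      filter_upwards [this, hτ β z, sh β hz, Lp.coeFn_const p volume (1 : ℂ)] with x a b c d e
      have : Lp.const p volume (1 : ℂ) x * τ β z x = 0 := a
      simp [b, c, d, e] at this
    simpa using sh (-β) h2
  have hφ : ∀ᵐ x, φ x ≠ 0 := by
    have := cl ![id] (fun i => by fin_cases i; exact continuous_id) (hf ((2 : ℂ) • f))
      (fun x v => φ x * 0 = φ x ∧ v 0 * (v 0 - f x) = 0 ∨ φ x ≠ 0) (fun x => by
        by_cases h : φ x = 0
        · simpa [h, -mul_eq_zero] using isClosed_eq (by fun_prop) (by fun_prop)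
        · simp [h]) (by
        rintro _ ⟨n, rfl⟩
        filter_upwards [hu n] with x a
        by_cases h : φ x = 0
        · refine .inl ⟨by simp [h], ?_⟩
          show T^[n] f x * (T^[n] f x - f x) = 0
          cases n with
          | zero => simp
          | succ n => simp [a, prod_range_succ', h, -Function.iterate_succ]
        · exact .inr h)
    filter_upwards [this, hf0, Lp.coeFn_smul (2 : ℂ) f] with x a b c
    refine a.resolve_left fun h => ?_
    have : ((2 : ℂ) • f) x * (((2 : ℂ) • f) x - f x) = 0 := h.2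
    rw [c] at this
    simp [b, two_mul] at this
  have hg : ∀ c : ℂ, ∃ g : Lp ℂ p (volume : Measure UnitAddCircle),
      ∀ᵐ x, g x = (c + x.toCircle) * f x := fun c => by
    have : MemLp (fun x => (c + x.toCircle) * f x) p (volume : Measure UnitAddCircle) :=
      ((Lp.memLp f).const_smul (‖c‖ + 1 : ℝ)).of_le
        (((by fun_prop : Continuous fun x : UnitAddCircle => c + x.toCircle).aestronglyMeasurable).mul
          (Lp.aestronglyMeasurable f)) (.of_forall fun x => by
          rw [norm_mul, Pi.smul_apply, norm_smul, Real.norm_of_nonneg (by positivity)]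
          gcongr
          simpa using norm_add_le c x.toCircle)
    exact ⟨_, this.coeFn_toLp⟩
  obtain ⟨g, hg2⟩ := hg 2
  obtain ⟨g', hg3⟩ := hg 3
  obtain ⟨β, hβ⟩ := hK g
  obtain ⟨β', hβ'⟩ := hK g'
  have inj : ∀ γ : UnitAddCircle, (γ.toCircle : ℂ) = 1 → γ = 0 := fun γ h =>
    AddCircle.injective_toCircle one_ne_zero (by rw [AddCircle.toCircle_zero]; exact Subtype.ext h)
  obtain rfl : β = 0 := by
    have : (fun x : UnitAddCircle => (2 + x.toCircle : ℂ) * (3 + (β + x).toCircle)) =
        fun x => (3 + x.toCircle : ℂ) * (2 + (β' + x).toCircle) := by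
      refine (Continuous.ae_eq_iff_eq volume (by fun_prop) (by fun_prop)).1 ?_
      filter_upwards [hid _ hβ _ hβ', hg2, hg3, sh β' hg2, sh β hg3, hf0, sh β hf0, sh β' hf0]
        with x a b c d e h1 h2 h3
      simp only [b, c, d, e] at a
      exact mul_right_cancel₀ (mul_ne_zero h1 (mul_ne_zero h2 h3)) (by linear_combination a)
    have a := congrFun this 0
    have b := congrFun this ((1 / 2 : ℝ) : UnitAddCircle)
    have e : (AddCircle.toCircle ((1 / 2 : ℝ) : UnitAddCircle) : ℂ) = -1 := by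
      rw [AddCircle.toCircle_apply_mk, Circle.coe_exp, ← Complex.exp_pi_mul_I]
      congr 2; push_cast; ring
    simp only [AddCircle.toCircle_add, Circle.coe_mul, e, AddCircle.toCircle_zero,
      Circle.coe_one] at a b
    exact inj _ (by linear_combination a + 2 * b)
  obtain rfl : α = 0 := by
    have : (fun x : UnitAddCircle => (2 + x.toCircle : ℂ)) = fun x => (2 + (α + x).toCircle : ℂ) := by
      refine (Continuous.ae_eq_iff_eq volume (by fun_prop) (by fun_prop)).1 ?_
      filter_upwards [hid _ hβ _ (subset_closure ⟨1, rfl⟩), hg2, sh α hg2, hf0, sh α hf0, hφ, hu 1]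
        with x a b c h1 h2 h3 e
      simp only [b, c, e, zero_add, one_smul, prod_range_one, zero_smul] at a
      exact mul_right_cancel₀ (mul_ne_zero (mul_ne_zero h1 h3) (mul_ne_zero h2 h2))
        (by linear_combination a)
    exact inj _ (by simpa using (congrFun this 0).symm)
  have key : ∀ c : ℝ, ∀ᵐ x, (‖φ x‖ ≤ 1 → |c| ≤ 1) ∧ (1 ≤ ‖φ x‖ → 1 ≤ |c|) := fun c => by
    have := cl ![id] (fun i => by fin_cases i; exact continuous_id) (hf ((c : ℂ) • f))
      (fun x v => (‖φ x‖ ≤ 1 → ‖v 0‖ ≤ ‖f x‖) ∧ (1 ≤ ‖φ x‖ → ‖f x‖ ≤ ‖v 0‖)) (fun x =>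
        IsClosed.and (isClosed_imp isOpen_const (isClosed_le (by fun_prop) (by fun_prop)))
          (isClosed_imp isOpen_const (isClosed_le (by fun_prop) (by fun_prop)))) (by
        rintro _ ⟨n, rfl⟩
        filter_upwards [hu n] with x a
        have : ‖T^[n] f x‖ = ‖φ x‖ ^ n * ‖f x‖ := by simp [a]
        exact ⟨fun h => this.trans_le (mul_le_of_le_one_left (norm_nonneg _)
          (pow_le_one₀ (norm_nonneg _) h)), fun h => (le_mul_of_one_le_left (norm_nonneg _)
          (one_le_pow₀ h)).trans this.ge⟩)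
    filter_upwards [this, hf0, Lp.coeFn_smul (c : ℂ) f] with x a b d
    have e : ‖((c : ℂ) • f) x‖ = |c| * ‖f x‖ := by rw [d]; simp
    have := norm_pos_iff.2 b
    exact ⟨fun h => by nlinarith [e.ge.trans (a.1 h)], fun h => by nlinarith [(a.2 h).trans e.le]⟩
  obtain ⟨x, a, b⟩ := ((key 2).and (key 0)).exists
  rcases le_total ‖φ x‖ 1 with h | h
  · have := a.1 h; norm_num at this
  · have := b.2 h; norm_num at this

end Pool.Agent.Results.MP_e40715_an.Never
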